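import Pool.Agent.H20.Betw

namespace Pool.Agent.Results.MP_8f6c4c_co.AllRationals
open Pool.Agent.H20

theorem result : ∀ α : ℚ, 1 < α → ∃ (V : Type) (_ : Fintype V) (G : SimpleGraph V),
    G.Connected ∧ ∀ v, betw G v = α :=
  Betw.attained

end Pool.Agent.Results.MP_8f6c4c_co.AllRationals
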